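import Pool.Agent.R56.E8.Inv

set_option autoImplicit false

namespace Pool.Agent.R56.E8

lemma mk (M : ℕ) (k : ℕ) (hM : 0 < M) (h2 : 2 ∣ M)
    (h : ∀ r : Fin M, (M : ℤ) ∣ (r.val : ℤ) ^ k - (r.val : ℤ) % 2) (y : ℤ) :
    (M : ℤ) ∣ y ^ k - y % 2 := by
  have h0 : 0 ≤ y % (M : ℤ) := Int.emod_nonneg _ (by omega)
  have h1 : y % (M : ℤ) < M := Int.emod_lt_of_pos _ (by omega)
  have hr := h ⟨(y % (M : ℤ)).toNat, by omega⟩
  simp only [Int.toNat_of_nonneg h0] at hr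
  have e1 : y % (M : ℤ) % 2 = y % 2 := Int.emod_emod_of_dvd y (by exact_mod_cast h2)
  rw [e1] at hr
  have e2 : (M : ℤ) ∣ y ^ k - (y % (M : ℤ)) ^ k := by
    have : (y % (M : ℤ)) ^ k ≡ y ^ k [ZMOD M] := (Int.mod_modEq y M).pow k
    exact this.dvd
  have := dvd_add e2 hr
  simpa using this

lemma s2 (y : Fin 8 → ℤ) : (4 : ℤ) ∣ ∑ i, y i ^ 2 - ∑ i, y i % 2 := by
  rw [← Finset.sum_sub_distrib]
  exact Finset.dvd_sum fun i _ => mk 4 2 (by norm_num) (by norm_num) (by decide) (y i)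

lemma s4 (y : Fin 8 → ℤ) : (16 : ℤ) ∣ ∑ i, y i ^ 4 - ∑ i, y i % 2 := by
  rw [← Finset.sum_sub_distrib]
  exact Finset.dvd_sum fun i _ => mk 16 4 (by norm_num) (by norm_num) (by decide) (y i)

lemma s6 (y : Fin 8 → ℤ) : (8 : ℤ) ∣ ∑ i, y i ^ 6 - ∑ i, y i % 2 := by
  rw [← Finset.sum_sub_distrib]
  exact Finset.dvd_sum fun i _ => mk 8 6 (by norm_num) (by norm_num) (by decide) (y i)

lemma s8 (y : Fin 8 → ℤ) : (32 : ℤ) ∣ ∑ i, y i ^ 8 - ∑ i, y i % 2 := by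
  rw [← Finset.sum_sub_distrib]
  exact Finset.dvd_sum fun i _ => mk 32 8 (by norm_num) (by norm_num) (by decide) (y i)

/-- four odd coordinates -/
theorem type_b (y : Fin 8 → ℤ) (h : ∑ i, y i % 2 = 4) (hp : (4 : ℤ) ∣ ∏ i, y i) :
    G y % 512 = 256 := by
  obtain ⟨A, hA⟩ := s2 y
  obtain ⟨a, ha⟩ := s4 y
  obtain ⟨b, hb⟩ := s6 y
  obtain ⟨c, hc⟩ := s8 y
  obtain ⟨d, hd⟩ := hp
  rw [h] at hA ha hb hc
  have hA' : ∑ i, y i ^ 2 = 4 * (A + 1) := by linarith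
  have ha' : ∑ i, y i ^ 4 = 4 + 16 * a := by linarith
  have hb' : ∑ i, y i ^ 6 = 4 + 8 * b := by linarith
  have hc' : ∑ i, y i ^ 8 = 4 + 32 * c := by linarith
  unfold G
  rw [hA', ha', hb', hc', hd]
  generalize A + 1 = B
  obtain ⟨f, hf⟩ : (2 : ℤ) ∣ B ^ 4 - B ^ 2 := by
    have : B ^ 4 - B ^ 2 = (B * (B + 1)) * (B * (B - 1)) := by ring
    rw [this]
    exact Dvd.dvd.mul_right (Int.even_mul_succ_self B).two_dvd _
  have e : 15 * (4 * B) ^ 4 - 140 * (4 * B) ^ 2 * (4 + 16 * a) + 140 * (4 + 16 * a) ^ 2 +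
      224 * (4 * B) * (4 + 8 * b) - 240 * (4 + 32 * c) + 13440 * (4 * d) =
      256 + 512 * (15 * f - 10 * B ^ 2 + 2 - 70 * B ^ 2 * a + 35 * a + 70 * a ^ 2
        + 7 * B * (1 + 2 * b) - 15 * c + 105 * d) := by
    linear_combination (256 * 15) * hf
  rw [e]
  omega

/-- two or six odd coordinates, norm twice an odd number -/
theorem type_o (y : Fin 8 → ℤ) (s n : ℤ) (h : ∑ i, y i % 2 = 2 * s) (hs : s % 2 = 1)
    (hn : ∑ i, y i ^ 2 = 2 * n) (hn' : n % 2 = 1) :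
    G y % 64 = 32 := by
  obtain ⟨a, ha⟩ := s4 y
  obtain ⟨b, hb⟩ := s6 y
  obtain ⟨c, hc⟩ := s8 y
  rw [h] at ha hb hc
  have ha' : ∑ i, y i ^ 4 = 2 * s + 16 * a := by linarith
  have hb' : ∑ i, y i ^ 6 = 2 * s + 8 * b := by linarith
  have hc' : ∑ i, y i ^ 8 = 2 * s + 32 * c := by linarith
  unfold G
  rw [hn, ha', hb', hc']
  obtain ⟨p, hp⟩ : ∃ p, s = 1 + 2 * p := ⟨s / 2, by omega⟩
  obtain ⟨q, hq⟩ : ∃ q, n = 1 + 2 * q := ⟨n / 2, by omega⟩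
  obtain ⟨p', hp'⟩ : (2 : ℤ) ∣ p * (p + 1) := (Int.even_mul_succ_self p).two_dvd
  obtain ⟨q', hq'⟩ : (2 : ℤ) ∣ q * (q + 1) := (Int.even_mul_succ_self q).two_dvd
  have es : s ^ 2 = 1 + 8 * p' := by rw [hp]; linear_combination 4 * hp'
  have en : n ^ 2 = 1 + 8 * q' := by rw [hq]; linear_combination 4 * hq'
  generalize ∏ i, y i = d
  have e : 15 * (2 * n) ^ 4 - 140 * (2 * n) ^ 2 * (2 * s + 16 * a) +
      140 * (2 * s + 16 * a) ^ 2 +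
      224 * (2 * n) * (2 * s + 8 * b) - 240 * (2 * s + 32 * c) + 13440 * d =
      800 - 1600 * s + 64 * (60 * q' + 240 * q' ^ 2 - 140 * q' * s - 140 * a * n ^ 2 + 70 * p'
        + 140 * s * a + 560 * a ^ 2 + 14 * n * s + 56 * n * b - 120 * c + 210 * d) := by
    linear_combination (240 * (n ^ 2 + 1 + 8 * q') - 1120 * s) * en + 560 * es
  rw [e]
  omega

end Pool.Agent.R56.E8
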