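import Pool.Agent.R56.E8.Arith

set_option autoImplicit false

namespace Pool.Agent.R56.E8

/-- `v / 2` is a vector of the `E8` lattice (as in the frozen statement of the problem): the
coordinates of `v` have the same parity and their sum is divisible by four. -/
def InE8 (v : Fin 8 → ℤ) : Prop := (∀ i j, v i % 2 = v j % 2) ∧ (∑ i, v i) % 4 = 0

lemma prodsum (y : Fin 8 → ℤ) (s : Finset (Fin 8)) (h : ∀ i, y i % 2 = 1) :
    (∏ i ∈ s, y i) % 2 = 1 ∧ (4 : ℤ) ∣ (∏ i ∈ s, y i) - 1 - ∑ i ∈ s, (y i - 1) := by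
  classical
  induction s using Finset.induction_on with
  | empty => simp
  | insert a s ha ih =>
    obtain ⟨h1, c, h2⟩ := ih
    rw [Finset.prod_insert ha, Finset.sum_insert ha]
    have h3 := h a
    refine ⟨by rw [Int.mul_emod, h3, h1]; norm_num, ?_⟩
    obtain ⟨p, hp⟩ : ∃ p, y a = 1 + 2 * p := ⟨y a / 2, by omega⟩
    obtain ⟨q, hq⟩ : ∃ q, ∏ i ∈ s, y i = 1 + 2 * q := ⟨(∏ i ∈ s, y i) / 2, by omega⟩
    refine ⟨p * q + c, ?_⟩
    rw [hq] at h2 ⊢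
    rw [hp]
    linear_combination h2

lemma prod_mod4 (y : Fin 8 → ℤ) (h : ∀ i, y i % 2 = 1) :
    (4 : ℤ) ∣ (∏ i, y i) - 1 - ∑ i, y i := by
  have h1 := (prodsum y Finset.univ h).2
  rw [Finset.sum_sub_distrib] at h1
  simp only [Finset.sum_const, Finset.card_univ, Fintype.card_fin] at h1
  have : (8 • (1 : ℤ)) = 8 := by norm_num
  rw [this] at h1
  omega

/-- all coordinates odd, sum twice an odd number -/
theorem type_a8 (y : Fin 8 → ℤ) (h : ∀ i, y i % 2 = 1) (hs : (∑ i, y i) % 4 = 2) :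
    G y % 512 = 256 := by
  have h8 : ∑ i, y i % 2 = 8 := by simp [h]
  have hA : (8 : ℤ) ∣ ∑ i, y i ^ 2 - 8 := by
    have : ∑ i : Fin 8, y i ^ 2 - 8 = ∑ i : Fin 8, (y i ^ 2 - 1) := by
      rw [Finset.sum_sub_distrib]; simp
    rw [this]
    refine Finset.dvd_sum fun i _ => ?_
    obtain ⟨p, hp⟩ : ∃ p, y i = 1 + 2 * p := ⟨y i / 2, by have := h i; omega⟩
    obtain ⟨q, hq⟩ := (Int.even_mul_succ_self p).two_dvd
    exact ⟨q, by rw [hp]; linear_combination 4 * hq⟩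
  obtain ⟨A, hA⟩ := hA
  obtain ⟨a, ha⟩ := s4 y
  obtain ⟨b, hb⟩ := s6 y
  obtain ⟨c, hc⟩ := s8 y
  rw [h8] at ha hb hc
  obtain ⟨d, hd⟩ := prod_mod4 y h
  obtain ⟨k, hk⟩ : ∃ k, ∑ i, y i = 2 + 4 * k := ⟨(∑ i, y i) / 4, by omega⟩
  have hA' : ∑ i, y i ^ 2 = 8 * (A + 1) := by linarith
  have ha' : ∑ i, y i ^ 4 = 8 + 16 * a := by linarith
  have hb' : ∑ i, y i ^ 6 = 8 + 8 * b := by linarith
  have hc' : ∑ i, y i ^ 8 = 8 + 32 * c := by linarith
  have hd' : ∏ i, y i = 3 + 4 * (d + k) := by linarith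
  unfold G
  rw [hA', ha', hb', hc', hd']
  generalize A + 1 = B
  generalize d + k = f
  have e : 15 * (8 * B) ^ 4 - 140 * (8 * B) ^ 2 * (8 + 16 * a) + 140 * (8 + 16 * a) ^ 2 +
      224 * (8 * B) * (8 + 8 * b) - 240 * (8 + 32 * c) + 13440 * (3 + 4 * f) =
      256 + 512 * (120 * B ^ 4 - 140 * B ^ 2 * (1 + 2 * a) + 17 + 70 * a + 70 * a ^ 2
        + 28 * B * (1 + b) - 4 - 15 * c + 79 + 105 * f) := by
    ring
  rw [e]
  omega

/-- all coordinates divisible by two -/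
theorem type_a0 (w : Fin 8 → ℤ) (h : (∑ i, w i) % 2 = 1) : G (fun i => 2 * w i) % 512 = 256 := by
  have h1 : (∑ i, w i ^ 2) % 2 = 1 := by
    have : (2 : ℤ) ∣ ∑ i, w i ^ 2 - ∑ i, w i := by
      rw [← Finset.sum_sub_distrib]
      refine Finset.dvd_sum fun i _ => ?_
      have : w i ^ 2 - w i = (w i - 1) * (w i - 1 + 1) := by ring
      rw [this]
      exact (Int.even_mul_succ_self (w i - 1)).two_dvd
    omega
  obtain ⟨k, hk⟩ : ∃ k, ∑ i, w i ^ 2 = 1 + 2 * k := ⟨(∑ i, w i ^ 2) / 2, by omega⟩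
  rw [G_smul]
  unfold G
  rw [hk]
  generalize ∑ i, w i ^ 4 = a
  generalize ∑ i, w i ^ 6 = b
  generalize ∑ i, w i ^ 8 = c
  generalize ∏ i, w i = d
  have e : (2 : ℤ) ^ 8 * (15 * (1 + 2 * k) ^ 4 - 140 * (1 + 2 * k) ^ 2 * a + 140 * a ^ 2 +
      224 * (1 + 2 * k) * b - 240 * c + 13440 * d) = 256 + 512 * (7 + 15 * (4 * k + 12 * k ^ 2
        + 16 * k ^ 3 + 8 * k ^ 4) - 70 * (1 + 2 * k) ^ 2 * a + 70 * a ^ 2 +
      112 * (1 + 2 * k) * b - 120 * c + 6720 * d) := by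
    ring
  rw [e]
  omega

lemma pow_card_dvd (w : Fin 8 → ℤ) : (2 : ℤ) ^ (∑ i, (1 - w i % 2).toNat) ∣ ∏ i, w i := by
  rw [← Finset.prod_pow_eq_pow_sum]
  refine Finset.prod_dvd_prod_of_dvd _ _ fun i _ => ?_
  rcases Int.emod_two_eq_zero_or_one (w i) with h | h
  · rw [h]; norm_num; omega
  · rw [h]; norm_num

lemma four_dvd (w : Fin 8 → ℤ) (h : ∑ i, w i % 2 = 4) : (4 : ℤ) ∣ ∏ i, w i := by
  have h1 : ∑ i, (1 - w i % 2).toNat = 4 := by
    have : ((∑ i, (1 - w i % 2).toNat : ℕ) : ℤ) = 4 := by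
      have : ∀ i, (((1 - w i % 2).toNat : ℕ) : ℤ) = 1 - w i % 2 := fun i => by omega
      rw [Nat.cast_sum, Finset.sum_congr rfl fun i _ => this i, Finset.sum_sub_distrib, h]
      simp
    exact_mod_cast this
  have h2 := pow_card_dvd w
  rw [h1] at h2
  exact dvd_trans (by norm_num) h2

/-- integral vectors -/
theorem int_case (w : Fin 8 → ℤ) (m : ℤ) (hs : (∑ i, w i) % 2 = 0) (hm : ∑ i, w i ^ 2 = 2 * m)
    (h8 : (∀ i, w i % 2 = 1) → (∑ i, w i) % 4 = 2)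
    (h0 : ∀ u : Fin 8 → ℤ, (∀ i, w i = 2 * u i) → (∑ i, u i) % 2 = 1) :
    (m % 2 = 1 → G w % 64 = 32) ∧ (m % 2 = 0 → G w % 512 = 256) := by
  have hb : ∀ i, 0 ≤ w i % 2 ∧ w i % 2 ≤ 1 := fun i => by omega
  have hpar : (∑ i, w i % 2) % 2 = 0 := by
    have : (2 : ℤ) ∣ ∑ i, w i - ∑ i, w i % 2 := by
      rw [← Finset.sum_sub_distrib]
      exact Finset.dvd_sum fun i _ => by omega
    omega
  have hlo : 0 ≤ ∑ i, w i % 2 := Finset.sum_nonneg fun i _ => (hb i).1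
  have hhi : ∑ i, w i % 2 ≤ 8 := by
    calc ∑ i, w i % 2 ≤ ∑ _i : Fin 8, (1 : ℤ) := Finset.sum_le_sum fun i _ => (hb i).2
      _ = 8 := by simp
  have h2 := s2 w
  rw [hm] at h2
  constructor
  · intro hodd
    obtain ⟨s, hs'⟩ : ∃ s, ∑ i, w i % 2 = 2 * s := ⟨(∑ i, w i % 2) / 2, by omega⟩
    refine type_o w s m hs' ?_ hm hodd
    rw [hs'] at h2
    omega
  · intro heven
    have h3 : ∑ i, w i % 2 = 0 ∨ ∑ i, w i % 2 = 4 ∨ ∑ i, w i % 2 = 8 := by omega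
    rcases h3 with h3 | h3 | h3
    · have h4 : ∀ i, w i % 2 = 0 := by
        intro i
        exact (Finset.sum_eq_zero_iff_of_nonneg fun i _ => (hb i).1).1 h3 i (Finset.mem_univ i)
      have h5 : w = fun i => 2 * (w i / 2) := by
        ext i; have := h4 i; omega
      rw [h5]
      exact type_a0 _ (h0 _ fun i => congrFun h5 i)
    · exact type_b w h3 (four_dvd w h3)
    · have h4 : ∀ i, w i % 2 = 1 := by
        have : ∑ i, (1 - w i % 2) = 0 := by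
          rw [Finset.sum_sub_distrib, h3]; simp
        intro i
        have := (Finset.sum_eq_zero_iff_of_nonneg (fun i _ => by
          have := (hb i).2; omega)).1 this i (Finset.mem_univ i)
        omega
      exact type_a8 w h4 (h8 h4)

end Pool.Agent.R56.E8
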