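import Pool.Agent.R56.E8.Poly

set_option autoImplicit false

open MeasureTheory Set Metric Real

namespace Pool.Agent.R56.E8

/-- The finite set `X` of points `v / 2` (given by the vectors `v` with integer coordinates) on the
sphere of radius `√(2m)` of `R^8` is a spherical `t`-design: for each polynomial of degree at
most `t` the average over `X` is the average over the sphere (the formula is the one of the
frozen statement). -/
def IsDesign (t m : ℕ) (X : Finset (Fin 8 → ℤ)) : Prop :=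
  ∀ p : MvPolynomial (Fin 8) ℝ, p.totalDegree ≤ t →
    (∑ v ∈ X, MvPolynomial.eval (fun i => (v i : ℝ) / 2) p)
      * ((MeasureTheory.volume : MeasureTheory.Measure (EuclideanSpace ℝ (Fin 8))).toSphere
          Set.univ).toReal
    = (X.card : ℝ) * ∫ u, MvPolynomial.eval
          (fun i => Real.sqrt (2 * (m : ℝ)) * (u : EuclideanSpace ℝ (Fin 8)) i) p
        ∂((MeasureTheory.volume : MeasureTheory.Measure (EuclideanSpace ℝ (Fin 8))).toSphere)

open MvPolynomial in
lemma deg_G : (G (MvPolynomial.X : Fin 8 → MvPolynomial (Fin 8) ℝ)).totalDegree ≤ 8 := by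
  have hs : ∀ k : ℕ, (∑ i : Fin 8, (MvPolynomial.X i : MvPolynomial (Fin 8) ℝ) ^ k).totalDegree
      ≤ k := fun k => by
    refine MvPolynomial.totalDegree_finsetSum_le fun i _ => ?_
    rw [MvPolynomial.totalDegree_X_pow]
  have hp : (∏ i : Fin 8, (MvPolynomial.X i : MvPolynomial (Fin 8) ℝ)).totalDegree ≤ 8 := by
    refine (MvPolynomial.totalDegree_finset_prod _ _).trans ?_
    simp
  have hc : ∀ n : ℕ, ((n : MvPolynomial (Fin 8) ℝ)).totalDegree = 0 := fun n => by
    rw [← map_natCast (C : ℝ →+* MvPolynomial (Fin 8) ℝ), MvPolynomial.totalDegree_C]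
  have hc2 : ∀ (n : ℕ) (q : MvPolynomial (Fin 8) ℝ), ((n : MvPolynomial (Fin 8) ℝ) * q).totalDegree
      ≤ q.totalDegree := fun n q => by
    refine (MvPolynomial.totalDegree_mul _ _).trans ?_
    rw [hc]; omega
  have hpow : ∀ (k l : ℕ), ((∑ i : Fin 8, (MvPolynomial.X i : MvPolynomial (Fin 8) ℝ) ^ k) ^ l).totalDegree
      ≤ l * k := fun k l => (MvPolynomial.totalDegree_pow _ _).trans (Nat.mul_le_mul le_rfl (hs k))
  have t1 := (hc2 15 ((∑ i : Fin 8, (MvPolynomial.X i : MvPolynomial (Fin 8) ℝ) ^ 2) ^ 4)).trans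
    (hpow 2 4)
  have t2 : (140 * (∑ i : Fin 8, (MvPolynomial.X i : MvPolynomial (Fin 8) ℝ) ^ 2) ^ 2 *
      (∑ i : Fin 8, (MvPolynomial.X i : MvPolynomial (Fin 8) ℝ) ^ 4)).totalDegree ≤ 8 := by
    refine (MvPolynomial.totalDegree_mul _ _).trans ?_
    have a1 := (hc2 140 ((∑ i : Fin 8, (MvPolynomial.X i : MvPolynomial (Fin 8) ℝ) ^ 2) ^ 2)).trans
      (hpow 2 2)
    have a2 := hs 4
    push_cast at a1
    omega
  have t3 := (hc2 140 ((∑ i : Fin 8, (MvPolynomial.X i : MvPolynomial (Fin 8) ℝ) ^ 4) ^ 2)).trans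
    (hpow 4 2)
  have t4 : (224 * (∑ i : Fin 8, (MvPolynomial.X i : MvPolynomial (Fin 8) ℝ) ^ 2) *
      (∑ i : Fin 8, (MvPolynomial.X i : MvPolynomial (Fin 8) ℝ) ^ 6)).totalDegree ≤ 8 := by
    refine (MvPolynomial.totalDegree_mul _ _).trans ?_
    have a1 := (hc2 224 (∑ i : Fin 8, (MvPolynomial.X i : MvPolynomial (Fin 8) ℝ) ^ 2)).trans
      (hs 2)
    have a2 := hs 6
    push_cast at a1
    omega
  have t5 := (hc2 240 (∑ i : Fin 8, (MvPolynomial.X i : MvPolynomial (Fin 8) ℝ) ^ 8)).trans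
    (hs 8)
  have t6 := (hc2 13440 (∏ i : Fin 8, (MvPolynomial.X i : MvPolynomial (Fin 8) ℝ))).trans hp
  push_cast at t1 t3 t5 t6
  unfold G
  refine (MvPolynomial.totalDegree_add _ _).trans (max_le ?_ t6)
  refine (MvPolynomial.totalDegree_sub _ _).trans (max_le ?_ t5)
  refine (MvPolynomial.totalDegree_add _ _).trans (max_le ?_ t4)
  refine (MvPolynomial.totalDegree_add _ _).trans (max_le ?_ (t3.trans (by norm_num)))
  refine (MvPolynomial.totalDegree_sub _ _).trans (max_le (t1.trans (by norm_num)) t2)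

lemma eval_G (f : Fin 8 → ℝ) :
    MvPolynomial.eval f (G (MvPolynomial.X : Fin 8 → MvPolynomial (Fin 8) ℝ)) = G f := by
  rw [map_G]
  simp

lemma area_ne : ((MeasureTheory.volume : MeasureTheory.Measure
    (EuclideanSpace ℝ (Fin 8))).toSphere Set.univ).toReal ≠ 0 := by
  have h := I0
  have h0 : (fun ξ => mm 0 ξ) = fun _ : sphere (0 : E) 1 => (1 : ℝ) := by
    ext ξ; simp [mm]
  rw [h0] at h
  simp only [integral_const, smul_eq_mul, mul_one] at h
  have h1 : ((MeasureTheory.volume : MeasureTheory.Measure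
    (EuclideanSpace ℝ (Fin 8))).toSphere Set.univ).toReal = π ^ 4 / 3 := h
  rw [h1]
  positivity

theorem design_sum (m : ℕ) (X : Finset (Fin 8 → ℤ)) (h : IsDesign 8 m X) :
    ∑ v ∈ X, G v = 0 := by
  have h1 := h (G MvPolynomial.X) deg_G
  simp only [eval_G] at h1
  have h2 : ∫ u : sphere (0 : E) 1, G (fun i => Real.sqrt (2 * (m : ℝ)) *
      (u : EuclideanSpace ℝ (Fin 8)) i) ∂((MeasureTheory.volume : MeasureTheory.Measure
        (EuclideanSpace ℝ (Fin 8))).toSphere) = 0 := by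
    simp only [G_smul]
    rw [integral_const_mul]
    have := int_G
    unfold sig at this
    rw [this, mul_zero]
  rw [h2, mul_zero] at h1
  have h3 := (mul_eq_zero.1 h1).resolve_right area_ne
  have h4 : ∀ v : Fin 8 → ℤ, G (fun i => (v i : ℝ) / 2) = (1 / 2) ^ 8 * ((G v : ℤ) : ℝ) := by
    intro v
    have e1 : (fun i => (v i : ℝ) / 2) = fun i => (1 / 2) * (v i : ℝ) := by
      ext i; ring
    have e2 : ((G v : ℤ) : ℝ) = G (fun i => (v i : ℝ)) := map_G (Int.castRingHom ℝ) v
    rw [e1, G_smul, e2]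
  simp only [h4] at h3
  rw [← Finset.mul_sum] at h3
  have h5 := (mul_eq_zero.1 h3).resolve_left (by norm_num)
  exact_mod_cast h5

end Pool.Agent.R56.E8
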