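import Pool.Agent.R56.E8.Half

set_option autoImplicit false

namespace Pool.Agent.R56.E8

lemma fine_one (y : ℤ) : ∃ τ ζ a b c : ℤ, y ^ 2 = y % 2 + 8 * τ + 4 * ζ ∧
    y ^ 4 = y % 2 + 16 * (τ + ζ + 2 * a) ∧ y ^ 6 = y % 2 + 8 * (τ + 2 * b) ∧
    y ^ 8 = y % 2 + 32 * (τ + 2 * c) ∧ (y % 2 = 1 → ζ = 0) ∧
    (y % 2 = 0 → ζ = (y / 2) ^ 2) := by
  rcases Int.emod_two_eq_zero_or_one y with h | h
  · obtain ⟨u, hu⟩ : ∃ u, y = 2 * u := ⟨y / 2, by omega⟩
    obtain ⟨a, ha⟩ : (2 : ℤ) ∣ u ^ 4 - u ^ 2 := by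
      have : u ^ 4 - u ^ 2 = (u * (u + 1)) * (u * (u - 1)) := by ring
      rw [this]
      exact Dvd.dvd.mul_right (Int.even_mul_succ_self u).two_dvd _
    refine ⟨0, u ^ 2, a, 4 * u ^ 6, 4 * u ^ 8, ?_, ?_, ?_, ?_, ?_, ?_⟩
    · rw [h, hu]; ring
    · rw [h, hu]; linear_combination 16 * ha
    · rw [h, hu]; ring
    · rw [h, hu]; ring
    · intro h1; omega
    · intro _; congr 1; omega
  · obtain ⟨u, hu⟩ : ∃ u, y = 1 + 2 * u := ⟨y / 2, by omega⟩
    obtain ⟨τ, hτ⟩ := (Int.even_mul_succ_self u).two_dvd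
    have e2 : y ^ 2 = 1 + 8 * τ := by rw [hu]; linear_combination 4 * hτ
    have e4 : y ^ 4 = (1 + 8 * τ) ^ 2 := by rw [← e2]; ring
    have e6 : y ^ 6 = (1 + 8 * τ) ^ 3 := by rw [← e2]; ring
    have e8 : y ^ 8 = (1 + 8 * τ) ^ 4 := by rw [← e2]; ring
    refine ⟨τ, 0, 2 * τ ^ 2, τ + 12 * τ ^ 2 + 32 * τ ^ 3, 6 * τ ^ 2 + 32 * τ ^ 3 + 64 * τ ^ 4,
      ?_, ?_, ?_, ?_, ?_, ?_⟩
    · rw [h, e2]; ring
    · rw [h, e4]; ring
    · rw [h, e6]; ring
    · rw [h, e8]; ring
    · intro _; rfl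
    · intro h1; omega

lemma odd_prod (y : Fin 8 → ℤ) (s : Finset (Fin 8)) (h : ∀ i ∈ s, y i % 2 = 1) :
    (∏ i ∈ s, y i) % 2 = 1 := by
  classical
  induction s using Finset.induction_on with
  | empty => simp
  | insert a s ha ih =>
    rw [Finset.prod_insert ha, Int.mul_emod, h a (Finset.mem_insert_self a s),
      ih fun i hi => h i (Finset.mem_insert_of_mem hi)]
    norm_num

/-- the value modulo 1024 in the case of an odd norm -/
theorem fine_odd (y : Fin 8 → ℤ) (m : ℤ) (ho : ∑ i, y i % 2 = 2 ∨ ∑ i, y i % 2 = 6)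
    (hn : ∑ i, y i ^ 2 = 2 * m) :
    (1024 : ℤ) ∣ G y - (240 * m ^ 4 - 1120 * m ^ 2 + 896 * m + 80) := by
  choose τ ζ a b c h2 h4 h6 h8 hz1 hz0 using fun i => fine_one (y i)
  have H2 : ∑ i, y i ^ 2 = ∑ i, y i % 2 + 8 * ∑ i, τ i + 4 * ∑ i, ζ i := by
    rw [Finset.sum_congr rfl fun i _ => h2 i, Finset.sum_add_distrib, Finset.sum_add_distrib,
      Finset.mul_sum, Finset.mul_sum]
  have H4 : ∑ i, y i ^ 4 = ∑ i, y i % 2 + 16 * (∑ i, τ i + ∑ i, ζ i + 2 * ∑ i, a i) := by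
    rw [Finset.sum_congr rfl fun i _ => h4 i, Finset.sum_add_distrib, ← Finset.mul_sum,
      Finset.sum_add_distrib, Finset.sum_add_distrib, ← Finset.mul_sum]
  have H6 : ∑ i, y i ^ 6 = ∑ i, y i % 2 + 8 * (∑ i, τ i + 2 * ∑ i, b i) := by
    rw [Finset.sum_congr rfl fun i _ => h6 i, Finset.sum_add_distrib, ← Finset.mul_sum,
      Finset.sum_add_distrib, ← Finset.mul_sum]
  have H8 : ∑ i, y i ^ 8 = ∑ i, y i % 2 + 32 * (∑ i, τ i + 2 * ∑ i, c i) := by
    rw [Finset.sum_congr rfl fun i _ => h8 i, Finset.sum_add_distrib, ← Finset.mul_sum,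
      Finset.sum_add_distrib, ← Finset.mul_sum]
  have hb : ∀ i, 0 ≤ y i % 2 ∧ y i % 2 ≤ 1 := fun i => by omega
  rcases ho with ho | ho
  · -- two odd coordinates
    have hd : (64 : ℤ) ∣ ∏ i, y i := by
      have h1 : ∑ i, (1 - y i % 2).toNat = 6 := by
        have : ((∑ i, (1 - y i % 2).toNat : ℕ) : ℤ) = 6 := by
          have : ∀ i, (((1 - y i % 2).toNat : ℕ) : ℤ) = 1 - y i % 2 := fun i => by omega
          rw [Nat.cast_sum, Finset.sum_congr rfl fun i _ => this i, Finset.sum_sub_distrib, ho]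
          simp
        exact_mod_cast this
      have h2 := pow_card_dvd y
      rw [h1] at h2
      exact dvd_trans (by norm_num) h2
    obtain ⟨d, hd⟩ := hd
    unfold G
    rw [hn] at H2
    rw [hn, H4, H6, H8, hd, ho]
    rw [ho] at H2
    generalize ∑ i, τ i = T at *
    generalize ∑ i, ζ i = Z at *
    generalize ∑ i, a i = A
    generalize ∑ i, b i = B
    generalize ∑ i, c i = C
    have hm : m = 1 + 4 * T + 2 * Z := by linarith
    obtain ⟨j, hj⟩ : ∃ j, m = 1 + 2 * j := ⟨2 * T + Z, by linarith⟩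
    obtain ⟨q, hq⟩ := (Int.even_mul_succ_self j).two_dvd
    have hm2 : m ^ 2 = 1 + 8 * q := by rw [hj]; linear_combination 4 * hq
    refine ⟨-70 * q * (T + Z + 2 * A) + 35 * (T + Z + 2 * A) ^ 2
      + 7 * B + 7 * j * (T + 2 * B) + (-4 * T - 15 * C) + 840 * d, ?_⟩
    linear_combination (-8960 * (T + Z + 2 * A)) * hm2 + (3584 * (T + 2 * B)) * hj
  · -- six odd coordinates
    have h4' : (Finset.univ.filter fun i => y i % 2 = 0).card = 2 := by
      have e1 : ∀ i, (1 - y i % 2) = if y i % 2 = 0 then 1 else 0 := fun i => by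
        rcases Int.emod_two_eq_zero_or_one (y i) with h | h <;> simp [h]
      have : ∑ i, (1 - y i % 2) = ((Finset.univ.filter fun i => y i % 2 = 0).card : ℤ) := by
        rw [Finset.sum_congr rfl fun i _ => e1 i, Finset.sum_boole]
      rw [Finset.sum_sub_distrib, ho] at this
      simp at this
      have h' : ((Finset.univ.filter fun i => y i % 2 = 0).card : ℤ) = 2 := by
        simp
        linarith
      exact_mod_cast h'
    obtain ⟨i1, i2, h12, hS⟩ := Finset.card_eq_two.1 h4'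
    have hi1 : y i1 % 2 = 0 := by
      have : i1 ∈ (Finset.univ.filter fun i => y i % 2 = 0) := by rw [hS]; simp
      simpa using this
    have hi2 : y i2 % 2 = 0 := by
      have : i2 ∈ (Finset.univ.filter fun i => y i % 2 = 0) := by rw [hS]; simp
      simpa using this
    have hodd : ∀ i, i ≠ i1 → i ≠ i2 → y i % 2 = 1 := by
      intro i ha hb'
      by_contra hc
      have : i ∈ (Finset.univ.filter fun i => y i % 2 = 0) := by simp; omega
      rw [hS] at this
      simp [ha, hb'] at this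
    have hZ : ∑ i, ζ i = ζ i1 + ζ i2 := by
      apply Finset.sum_eq_add i1 i2 h12
      · intro c' _ hc
        exact hz1 c' (hodd c' hc.1 hc.2)
      · intro hh; exact absurd (Finset.mem_univ i1) hh
      · intro hh; exact absurd (Finset.mem_univ i2) hh
    rw [hz0 i1 hi1, hz0 i2 hi2] at hZ
    have hR := odd_prod y ((Finset.univ.erase i1).erase i2) (fun i hi => by
      simp only [Finset.mem_erase, Finset.mem_univ, and_true] at hi
      exact hodd i hi.2 hi.1)
    have hP : ∏ i, y i = y i1 * (y i2 * ∏ i ∈ (Finset.univ.erase i1).erase i2, y i) := by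
      rw [Finset.mul_prod_erase _ y (by simp [h12.symm]), Finset.mul_prod_erase _ y (by simp)]
    generalize ∏ i ∈ (Finset.univ.erase i1).erase i2, y i = R at hR hP
    obtain ⟨u, hu⟩ : ∃ u, y i1 = 2 * u := ⟨y i1 / 2, by omega⟩
    obtain ⟨w, hw⟩ : ∃ w, y i2 = 2 * w := ⟨y i2 / 2, by omega⟩
    have hu' : y i1 / 2 = u := by omega
    have hw' : y i2 / 2 = w := by omega
    rw [hu', hw'] at hZ
    rw [hu, hw] at hP
    have hP' : ∏ i, y i = 4 * (u * w * R) := by rw [hP]; ring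
    have hE : (u * w * R) % 2 = (u % 2) * (w % 2) := by
      rw [Int.mul_emod, hR, mul_one, Int.emod_emod_of_dvd _ (by norm_num : (2 : ℤ) ∣ 2),
        Int.mul_emod]
      rcases Int.emod_two_eq_zero_or_one u with h | h <;>
        rcases Int.emod_two_eq_zero_or_one w with h' | h' <;> rw [h, h'] <;> norm_num
    have sq4 : ∀ x : ℤ, x ^ 2 % 4 = x % 2 := fun x => by
      rcases Int.emod_two_eq_zero_or_one x with h | h
      · obtain ⟨k, hk⟩ : ∃ k, x = 2 * k := ⟨x / 2, by omega⟩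
        have : x ^ 2 = 4 * k ^ 2 := by rw [hk]; ring
        rw [this, h]; omega
      · obtain ⟨k, hk⟩ : ∃ k, x = 1 + 2 * k := ⟨x / 2, by omega⟩
        have : x ^ 2 = 1 + 4 * (k + k ^ 2) := by rw [hk]; ring
        rw [this, h]; omega
    have hu4 := sq4 u
    have hw4 := sq4 w
    unfold G
    rw [hn] at H2
    rw [hn, H4, H6, H8, hP', ho]
    rw [ho] at H2
    generalize u * w * R = E at *
    generalize ∑ i, τ i = T at *
    generalize ∑ i, ζ i = Z at *
    generalize ∑ i, a i = A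
    generalize ∑ i, b i = B
    generalize ∑ i, c i = C
    have hm : m = 3 + 4 * T + 2 * Z := by linarith
    obtain ⟨j, hj⟩ : ∃ j, m = 1 + 2 * j := ⟨1 + 2 * T + Z, by linarith⟩
    have hj' : j = 1 + 2 * T + Z := by linarith
    obtain ⟨q, hq⟩ := (Int.even_mul_succ_self j).two_dvd
    have hm2 : m ^ 2 = 1 + 8 * q := by rw [hj]; linear_combination 4 * hq
    have hqp : q % 2 = if j % 4 = 1 ∨ j % 4 = 2 then 1 else 0 := by
      have h' : j % 4 = 0 ∨ j % 4 = 1 ∨ j % 4 = 2 ∨ j % 4 = 3 := by omega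
      rcases h' with h' | h' | h' | h'
      · obtain ⟨k, hk⟩ : ∃ k, j = 4 * k := ⟨j / 4, by omega⟩
        have : q = 2 * (k * (4 * k + 1)) := by
          have : 2 * q = 2 * (2 * (k * (4 * k + 1))) := by rw [← hq, hk]; ring
          linarith
        rw [this, h']; norm_num
      · obtain ⟨k, hk⟩ : ∃ k, j = 4 * k + 1 := ⟨j / 4, by omega⟩
        have : q = 1 + 2 * (3 * k + 4 * k ^ 2) := by
          have : 2 * q = 2 * (1 + 2 * (3 * k + 4 * k ^ 2)) := by rw [← hq, hk]; ring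
          linarith
        rw [this, h']; norm_num
      · obtain ⟨k, hk⟩ : ∃ k, j = 4 * k + 2 := ⟨j / 4, by omega⟩
        have : q = 1 + 2 * (1 + 5 * k + 4 * k ^ 2) := by
          have : 2 * q = 2 * (1 + 2 * (1 + 5 * k + 4 * k ^ 2)) := by rw [← hq, hk]; ring
          linarith
        rw [this, h']; norm_num
      · obtain ⟨k, hk⟩ : ∃ k, j = 4 * k + 3 := ⟨j / 4, by omega⟩
        have : q = 2 * (3 + 7 * k + 4 * k ^ 2) := by
          have : 2 * q = 2 * (2 * (3 + 7 * k + 4 * k ^ 2)) := by rw [← hq, hk]; ring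
          linarith
        rw [this, h']; norm_num
    have hK : (q + j + T + Z + E) % 2 = 0 := by
      rcases Int.emod_two_eq_zero_or_one u with h | h <;>
        rcases Int.emod_two_eq_zero_or_one w with h' | h' <;>
        rw [h, h'] at hE <;> rw [h] at hu4 <;> rw [h'] at hw4 <;> norm_num at hE <;>
        split_ifs at hqp with hh <;> omega
    obtain ⟨K, hK'⟩ : ∃ K, q + j + T + Z + E = 2 * K := ⟨(q + j + T + Z + E) / 2, by omega⟩
    refine ⟨3 + K - 18 * q + 3 * j + 17 * T + 17 * Z + 52 * E + 35 * A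
      - 70 * q * (T + Z + 2 * A) + 35 * (T + Z + 2 * A) ^ 2
      + 7 * B + 7 * j * (T + 2 * B) + (-4 * T - 15 * C), ?_⟩
    linear_combination (-2240 - 8960 * (T + Z + 2 * A)) * hm2 +
      (1792 + 3584 * (T + 2 * B)) * hj + 512 * hK'

end Pool.Agent.R56.E8
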