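import Pool.Agent.R56.E8.Fine

set_option autoImplicit false

namespace Pool.Agent.R56.E8

/-- half-integral vectors of odd norm -/
theorem half_struct (v : Fin 8 → ℤ) (m : ℤ) (ho : ∀ i, v i % 2 = 1) (hs : (∑ i, v i) % 4 = 0)
    (hm : ∑ i, v i ^ 2 = 8 * m) :
    ∃ y : Fin 8 → ℤ, G v = 256 * G y ∧ ∑ i, y i ^ 2 = 2 * m ∧
      (m % 2 = 1 → ∑ i, y i % 2 = 2 ∨ ∑ i, y i % 2 = 6) := by
  set e : Fin 8 → ℤ := fun i => if v i % 4 = 1 then 1 else -1 with he
  set c : Fin 8 → ℤ := fun i => (e i * v i - 1) / 4 with hc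
  have hec : ∀ i, e i * v i = 1 + 4 * c i := by
    intro i
    have h1 := ho i
    simp only [hc, he]
    split_ifs with h <;> omega
  have he2 : ∀ i, e i ^ 2 = 1 := by
    intro i
    simp only [he]
    split_ifs <;> norm_num
  have hep : ∏ i, e i = 1 := by
    have h1 : ∏ i, e i = 1 ∨ ∏ i, e i = -1 := by
      have : (∏ i, e i) ^ 2 = 1 := by
        rw [← Finset.prod_pow]
        simp [he2]
      exact mul_self_eq_one_iff.1 (by rw [← sq]; exact this)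
    have h2 : (4 : ℤ) ∣ (∏ i, e i) - ∏ i, v i := by
      have : ∏ i, e i ≡ ∏ i, v i [ZMOD 4] := by
        refine Int.ModEq.prod fun i _ => ?_
        have h1 := ho i
        simp only [he, Int.ModEq]
        split_ifs with h <;> omega
      exact (Int.ModEq.dvd this.symm)
    have h3 := prod_mod4 v ho
    rcases h1 with h | h
    · exact h
    · rw [h] at h2
      omega
  have hG1 : G v = G (fun i => 1 + 4 * c i) := by
    rw [← G_sign e v he2 hep]
    congr 1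
    ext i
    exact hec i
  have hsq : ∑ i, (1 + 4 * c i) ^ 2 = 8 * m := by
    rw [← hm]
    refine Finset.sum_congr rfl fun i _ => ?_
    rw [← hec i, mul_pow, he2, one_mul]
  set y : Fin 8 → ℤ := ![1 + c 0 + c 1 + c 2 + c 3, c 0 + c 1 - c 2 - c 3,
    c 0 - c 1 + c 2 - c 3, c 0 - c 1 - c 2 + c 3,
    1 + c 4 + c 5 + c 6 + c 7, c 4 + c 5 - c 6 - c 7,
    c 4 - c 5 + c 6 - c 7, c 4 - c 5 - c 6 + c 7] with hy
  have hU : U y = fun i => 1 + 4 * c i := by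
    ext i
    fin_cases i <;> simp [U, hy] <;> ring
  have hG : G v = 256 * G y := by
    rw [hG1, ← hU, G_U]
  have hn : ∑ i, y i ^ 2 = 2 * m := by
    have h1 : 4 * ∑ i, y i ^ 2 = ∑ i, (1 + 4 * c i) ^ 2 := by
      simp only [Fin.sum_univ_eight, hy, Matrix.cons_val]
      ring
    omega
  have hpm : (2 : ℤ) ∣ m - 1 - ((c 0 + c 1 + c 2 + c 3) + (c 4 + c 5 + c 6 + c 7)) := by
    have h1 : 8 * m = 8 + 8 * ∑ i, c i + 16 * ∑ i, c i ^ 2 := by
      rw [← hsq]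
      simp only [Fin.sum_univ_eight]
      ring
    simp only [Fin.sum_univ_eight] at h1
    omega
  have hsum : ∑ i, y i % 2 = 2 * (1 + (c 0 + c 1 + c 2 + c 3) % 2 +
      (c 4 + c 5 + c 6 + c 7) % 2) := by
    have b1 := blk (c 0) (c 1) (c 2) (c 3)
    have b2 := blk (c 4) (c 5) (c 6) (c 7)
    simp only [Fin.sum_univ_eight, hy, Matrix.cons_val]
    linarith
  clear_value y
  clear hG1 hU hy hsq hec hep he2
  refine ⟨y, hG, hn, fun hodd => ?_⟩
  omega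

theorem odd_shell (v : Fin 8 → ℤ) (m : ℤ) (h : InE8 v) (hm : ∑ i, v i ^ 2 = 8 * m)
    (hodd : m % 2 = 1) :
    (262144 : ℤ) ∣ G v - 256 * (240 * m ^ 4 - 1120 * m ^ 2 + 896 * m + 80) := by
  have key : ∃ y : Fin 8 → ℤ, G v = 256 * G y ∧ ∑ i, y i ^ 2 = 2 * m ∧
      (∑ i, y i % 2 = 2 ∨ ∑ i, y i % 2 = 6) := by
    rcases Int.emod_two_eq_zero_or_one (v 0) with h0 | h0
    · have he : ∀ i, v i % 2 = 0 := fun i => by rw [h.1 i 0, h0]
      set w : Fin 8 → ℤ := fun i => v i / 2 with hw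
      have hv : ∀ i, v i = 2 * w i := fun i => by simp only [hw]; have := he i; omega
      have hv' : v = fun i => 2 * w i := funext hv
      have hs : ∑ i, v i = 2 * ∑ i, w i := by
        rw [Finset.mul_sum]; exact Finset.sum_congr rfl fun i _ => hv i
      have h2 := h.2
      rw [hs] at h2
      have hn : ∑ i, w i ^ 2 = 2 * m := by
        have : ∑ i, v i ^ 2 = 4 * ∑ i, w i ^ 2 := by
          rw [Finset.mul_sum]; exact Finset.sum_congr rfl fun i _ => by rw [hv i]; ring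
        omega
      refine ⟨w, by rw [hv', G_smul]; norm_num, hn, ?_⟩
      have hb : ∀ i, 0 ≤ w i % 2 ∧ w i % 2 ≤ 1 := fun i => by omega
      have hpar : (∑ i, w i % 2) % 2 = 0 := by
        have : (2 : ℤ) ∣ ∑ i, w i - ∑ i, w i % 2 := by
          rw [← Finset.sum_sub_distrib]
          exact Finset.dvd_sum fun i _ => by omega
        omega
      have hlo : 0 ≤ ∑ i, w i % 2 := Finset.sum_nonneg fun i _ => (hb i).1
      have hhi : ∑ i, w i % 2 ≤ 8 := by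
        calc ∑ i, w i % 2 ≤ ∑ _i : Fin 8, (1 : ℤ) := Finset.sum_le_sum fun i _ => (hb i).2
          _ = 8 := by simp
      have h4 := s2 w
      rw [hn] at h4
      omega
    · have ho : ∀ i, v i % 2 = 1 := fun i => by rw [h.1 i 0, h0]
      obtain ⟨y, h1, h2, h3⟩ := half_struct v m ho h.2 hm
      exact ⟨y, h1, h2, h3 hodd⟩
  obtain ⟨y, h1, h2, h3⟩ := key
  obtain ⟨k, hk⟩ := fine_odd y m h3 h2
  exact ⟨k, by rw [h1]; linear_combination 256 * hk⟩

lemma g0_odd (m : ℤ) (hodd : m % 2 = 1) :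
    ∃ k : ℤ, 240 * m ^ 4 - 1120 * m ^ 2 + 896 * m + 80 = 32 * (2 * k + 1) := by
  obtain ⟨j, hj⟩ : ∃ j, m = 1 + 2 * j := ⟨m / 2, by omega⟩
  obtain ⟨q, hq⟩ := (Int.even_mul_succ_self j).two_dvd
  have hm2 : m ^ 2 = 1 + 8 * q := by rw [hj]; linear_combination 4 * hq
  refine ⟨1 - 80 * q + 240 * q ^ 2 + 28 * j, ?_⟩
  have h4 : m ^ 4 = (1 + 8 * q) ^ 2 := by rw [← hm2]; ring
  rw [h4, hm2, hj]
  ring

lemma odd_card (m : ℤ) (hodd : m % 2 = 1) (X : Finset (Fin 8 → ℤ))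
    (h : ∀ v ∈ X, InE8 v ∧ ∑ i, v i ^ 2 = 8 * m) (h0 : ∑ v ∈ X, G v = 0) : 32 ∣ X.card := by
  have h1 : (262144 : ℤ) ∣ ∑ v ∈ X, (G v - 256 * (240 * m ^ 4 - 1120 * m ^ 2 + 896 * m + 80)) :=
    Finset.dvd_sum fun v hv => odd_shell v m (h v hv).1 (h v hv).2 hodd
  obtain ⟨k, hk⟩ := g0_odd m hodd
  rw [Finset.sum_sub_distrib, h0, Finset.sum_const, nsmul_eq_mul, hk] at h1
  obtain ⟨c, hc⟩ := h1
  have h2 : (32 : ℤ) ∣ (X.card : ℤ) * (2 * k + 1) := ⟨-c, by linarith⟩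
  have h3 : IsCoprime (32 : ℤ) (2 * k + 1) := by
    have : IsCoprime (2 : ℤ) (2 * k + 1) := ⟨-k, 1, by ring⟩
    have := this.pow_left (m := 5)
    norm_num at this
    exact this
  have h4 := h3.dvd_of_dvd_mul_right h2
  exact_mod_cast h4

end Pool.Agent.R56.E8
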