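import Pool.Agent.R56.E8.Arith2

set_option autoImplicit false

namespace Pool.Agent.R56.E8

lemma blk (a b c d : ℤ) : (1 + a + b + c + d) % 2 + (a + b - c - d) % 2 + (a - b + c - d) % 2 +
    (a - b - c + d) % 2 = 1 + 2 * ((a + b + c + d) % 2) := by
  have e1 : (a + b - c - d) % 2 = (a + b + c + d) % 2 := by omega
  have e2 : (a - b + c - d) % 2 = (a + b + c + d) % 2 := by omega
  have e3 : (a - b - c + d) % 2 = (a + b + c + d) % 2 := by omega
  have e0 : (1 + a + b + c + d) % 2 = 1 - (a + b + c + d) % 2 := by omega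
  rw [e0, e1, e2, e3]
  ring

/-- half-integral vectors -/
theorem half_case (v : Fin 8 → ℤ) (m : ℤ) (ho : ∀ i, v i % 2 = 1) (hs : (∑ i, v i) % 4 = 0)
    (hm : ∑ i, v i ^ 2 = 8 * m) :
    ∃ y : Fin 8 → ℤ, G v = 256 * G y ∧ (m % 2 = 1 → G y % 64 = 32) ∧
      (m % 2 = 0 → G y % 512 = 256) := by
  set e : Fin 8 → ℤ := fun i => if v i % 4 = 1 then 1 else -1 with he
  set c : Fin 8 → ℤ := fun i => (e i * v i - 1) / 4 with hc
  have hec : ∀ i, e i * v i = 1 + 4 * c i := by
    intro i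
    have h1 := ho i
    simp only [hc, he]
    split_ifs with h <;> omega
  have he2 : ∀ i, e i ^ 2 = 1 := by
    intro i
    simp only [he]
    split_ifs <;> norm_num
  have hep : ∏ i, e i = 1 := by
    have h1 : ∏ i, e i = 1 ∨ ∏ i, e i = -1 := by
      have : (∏ i, e i) ^ 2 = 1 := by
        rw [← Finset.prod_pow]
        simp [he2]
      exact mul_self_eq_one_iff.1 (by rw [← sq]; exact this)
    have h2 : (4 : ℤ) ∣ (∏ i, e i) - ∏ i, v i := by
      have : ∏ i, e i ≡ ∏ i, v i [ZMOD 4] := by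
        refine Int.ModEq.prod fun i _ => ?_
        have h1 := ho i
        simp only [he, Int.ModEq]
        split_ifs with h <;> omega
      exact (Int.ModEq.dvd this.symm)
    have h3 := prod_mod4 v ho
    rcases h1 with h | h
    · exact h
    · rw [h] at h2
      omega
  have hG1 : G v = G (fun i => 1 + 4 * c i) := by
    rw [← G_sign e v he2 hep]
    congr 1
    ext i
    exact hec i
  have hsq : ∑ i, (1 + 4 * c i) ^ 2 = 8 * m := by
    rw [← hm]
    refine Finset.sum_congr rfl fun i _ => ?_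
    rw [← hec i, mul_pow, he2, one_mul]
  set y : Fin 8 → ℤ := ![1 + c 0 + c 1 + c 2 + c 3, c 0 + c 1 - c 2 - c 3,
    c 0 - c 1 + c 2 - c 3, c 0 - c 1 - c 2 + c 3,
    1 + c 4 + c 5 + c 6 + c 7, c 4 + c 5 - c 6 - c 7,
    c 4 - c 5 + c 6 - c 7, c 4 - c 5 - c 6 + c 7] with hy
  have hU : U y = fun i => 1 + 4 * c i := by
    ext i
    fin_cases i <;> simp [U, hy] <;> ring
  have hG : G v = 256 * G y := by
    rw [hG1, ← hU, G_U]
  have hn : ∑ i, y i ^ 2 = 2 * m := by
    have h1 : 4 * ∑ i, y i ^ 2 = ∑ i, (1 + 4 * c i) ^ 2 := by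
      simp only [Fin.sum_univ_eight, hy, Matrix.cons_val]
      ring
    omega
  have hpm : (2 : ℤ) ∣ m - 1 - ((c 0 + c 1 + c 2 + c 3) + (c 4 + c 5 + c 6 + c 7)) := by
    have h1 : 8 * m = 8 + 8 * ∑ i, c i + 16 * ∑ i, c i ^ 2 := by
      rw [← hsq]
      simp only [Fin.sum_univ_eight]
      ring
    simp only [Fin.sum_univ_eight] at h1
    omega
  have hsum : ∑ i, y i % 2 = 2 * (1 + (c 0 + c 1 + c 2 + c 3) % 2 +
      (c 4 + c 5 + c 6 + c 7) % 2) := by
    have b1 := blk (c 0) (c 1) (c 2) (c 3)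
    have b2 := blk (c 4) (c 5) (c 6) (c 7)
    simp only [Fin.sum_univ_eight, hy, Matrix.cons_val]
    linarith
  clear_value y
  clear hG1 hU hy hsq hec hep he2
  have q1 : (c 0 + c 1 + c 2 + c 3) % 2 = 0 ∨ (c 0 + c 1 + c 2 + c 3) % 2 = 1 :=
    Int.emod_two_eq_zero_or_one _
  have q2 : (c 4 + c 5 + c 6 + c 7) % 2 = 0 ∨ (c 4 + c 5 + c 6 + c 7) % 2 = 1 :=
    Int.emod_two_eq_zero_or_one _
  generalize c 0 + c 1 + c 2 + c 3 = C at *
  generalize c 4 + c 5 + c 6 + c 7 = D at *
  refine ⟨y, hG, ?_, ?_⟩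
  · intro hodd
    exact type_o y _ m hsum (by omega) hn hodd
  · intro heven
    have h4 : ∑ i, y i % 2 = 4 := by omega
    exact type_b y h4 (four_dvd y h4)

/-- The 2-adic value of `G` on the vectors of the `E8` lattice not divisible by two. -/
theorem primitive_val (v : Fin 8 → ℤ) (m : ℤ) (h : InE8 v) (hm : ∑ i, v i ^ 2 = 8 * m)
    (hp : ¬ ∃ u : Fin 8 → ℤ, InE8 u ∧ ∀ i, v i = 2 * u i) :
    ∃ g : ℤ, G v = 256 * g ∧ (m % 2 = 1 → g % 64 = 32) ∧ (m % 2 = 0 → g % 512 = 256) := by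
  rcases Int.emod_two_eq_zero_or_one (v 0) with h0 | h0
  · have he : ∀ i, v i % 2 = 0 := fun i => by rw [h.1 i 0, h0]
    set w : Fin 8 → ℤ := fun i => v i / 2 with hw
    have hv : ∀ i, v i = 2 * w i := fun i => by simp only [hw]; have := he i; omega
    have hv' : v = fun i => 2 * w i := funext hv
    have hs : ∑ i, v i = 2 * ∑ i, w i := by
      rw [Finset.mul_sum]; exact Finset.sum_congr rfl fun i _ => hv i
    have h2 := h.2
    rw [hs] at h2
    refine ⟨G w, ?_, int_case w m (by omega) ?_ ?_ ?_⟩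
    · rw [hv', G_smul]; norm_num
    · have : ∑ i, v i ^ 2 = 4 * ∑ i, w i ^ 2 := by
        rw [Finset.mul_sum]; exact Finset.sum_congr rfl fun i _ => by rw [hv i]; ring
      omega
    · intro ho
      by_contra hc
      exact hp ⟨w, ⟨fun i j => by rw [ho i, ho j], by omega⟩, hv⟩
    · intro u hu
      by_contra hc
      refine hp ⟨w, ⟨fun i j => by rw [hu i, hu j]; omega, ?_⟩, hv⟩
      have : ∑ i, w i = 2 * ∑ i, u i := by
        rw [Finset.mul_sum]; exact Finset.sum_congr rfl fun i _ => hu i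
      omega
  · have ho : ∀ i, v i % 2 = 1 := fun i => by rw [h.1 i 0, h0]
    obtain ⟨y, h1, h2, h3⟩ := half_case v m ho h.2 hm
    exact ⟨G y, h1, h2, h3⟩

lemma norm_div (v : Fin 8 → ℤ) (h : InE8 v) : (8 : ℤ) ∣ ∑ i, v i ^ 2 := by
  rcases Int.emod_two_eq_zero_or_one (v 0) with h0 | h0
  · have he : ∀ i, v i % 2 = 0 := fun i => by rw [h.1 i 0, h0]
    set w : Fin 8 → ℤ := fun i => v i / 2 with hw
    have hv : ∀ i, v i = 2 * w i := fun i => by simp only [hw]; have := he i; omega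
    have hs : ∑ i, v i = 2 * ∑ i, w i := by
      rw [Finset.mul_sum]; exact Finset.sum_congr rfl fun i _ => hv i
    have h2 := h.2
    rw [hs] at h2
    have h3 : ∑ i, v i ^ 2 = 4 * ∑ i, w i ^ 2 := by
      rw [Finset.mul_sum]; exact Finset.sum_congr rfl fun i _ => by rw [hv i]; ring
    have : (2 : ℤ) ∣ ∑ i, w i ^ 2 - ∑ i, w i := by
      rw [← Finset.sum_sub_distrib]
      refine Finset.dvd_sum fun i _ => ?_
      have : w i ^ 2 - w i = (w i - 1) * (w i - 1 + 1) := by ring
      rw [this]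
      exact (Int.even_mul_succ_self (w i - 1)).two_dvd
    omega
  · have ho : ∀ i, v i % 2 = 1 := fun i => by rw [h.1 i 0, h0]
    have h8 : (8 : ℤ) ∣ ∑ i : Fin 8, (v i ^ 2 - 1) := by
      refine Finset.dvd_sum fun i _ => ?_
      obtain ⟨p, hp⟩ : ∃ p, v i = 1 + 2 * p := ⟨v i / 2, by have := ho i; omega⟩
      obtain ⟨q, hq⟩ := (Int.even_mul_succ_self p).two_dvd
      exact ⟨q, by rw [hp]; linear_combination 4 * hq⟩
    rw [Finset.sum_sub_distrib] at h8
    simp only [Finset.sum_const, Finset.card_univ, Fintype.card_fin] at h8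
    have : (8 • (1 : ℤ)) = 8 := by norm_num
    rw [this] at h8
    omega

/-- `G` does not vanish on the nonzero vectors of the `E8` lattice. -/
theorem G_ne_zero (n : ℕ) : ∀ v : Fin 8 → ℤ, (∑ i, (v i).natAbs) ≤ n → InE8 v → v ≠ 0 →
    G v ≠ 0 := by
  induction n with
  | zero =>
    intro v hn h hv
    exfalso
    apply hv
    ext i
    have : ∑ i, (v i).natAbs = 0 := by omega
    have := (Finset.sum_eq_zero_iff.1 this) i (Finset.mem_univ i)
    simpa using this
  | succ n ih =>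
    intro v hn h hv
    by_cases hp : ∃ u : Fin 8 → ℤ, InE8 u ∧ ∀ i, v i = 2 * u i
    · obtain ⟨u, hu, huv⟩ := hp
      have hu0 : u ≠ 0 := by
        intro h0
        apply hv
        ext i
        rw [huv i, h0]
        simp
      have h1 : ∑ i, (v i).natAbs = 2 * ∑ i, (u i).natAbs := by
        rw [Finset.mul_sum]
        exact Finset.sum_congr rfl fun i _ => by rw [huv i, Int.natAbs_mul]; rfl
      have h2 : 0 < ∑ i, (u i).natAbs := by
        rw [Nat.pos_iff_ne_zero]
        intro h3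
        apply hu0
        ext i
        have := (Finset.sum_eq_zero_iff.1 h3) i (Finset.mem_univ i)
        simpa using this
      have h3 := ih u (by omega) hu hu0
      have h4 : v = fun i => 2 * u i := funext huv
      rw [h4, G_smul]
      exact mul_ne_zero (by norm_num) h3
    · obtain ⟨m, hm⟩ := norm_div v h
      obtain ⟨g, h1, h2, h3⟩ := primitive_val v m h hm hp
      intro h0
      have hg : g = 0 := by omega
      rcases Int.emod_two_eq_zero_or_one m with h4 | h4
      · have := h3 h4; rw [hg] at this; norm_num at this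
      · have := h2 h4; rw [hg] at this; norm_num at this

end Pool.Agent.R56.E8
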