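import Pool.Agent.R56.E8.Poly

set_option autoImplicit false

namespace Pool.Agent.R56.E8

/-- Twice an orthogonal transformation of `R^8` (two Hadamard blocks). -/
def U {R : Type*} [CommRing R] (y : Fin 8 → R) : Fin 8 → R :=
  ![y 0 + y 1 + y 2 + y 3, y 0 + y 1 - y 2 - y 3, y 0 - y 1 + y 2 - y 3, y 0 - y 1 - y 2 + y 3,
    y 4 + y 5 + y 6 + y 7, y 4 + y 5 - y 6 - y 7, y 4 - y 5 + y 6 - y 7, y 4 - y 5 - y 6 + y 7]

theorem G_U {R : Type*} [CommRing R] (y : Fin 8 → R) : G (U y) = 256 * G y := by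
  simp only [G, U, Fin.sum_univ_eight, Fin.prod_univ_eight, Matrix.cons_val]
  ring

/-- Sign changes with product one. -/
theorem G_sign {R : Type*} [CommRing R] (e y : Fin 8 → R) (he : ∀ i, e i ^ 2 = 1)
    (hp : ∏ i, e i = 1) : G (fun i => e i * y i) = G y := by
  have h4 : ∀ i, e i ^ 4 = 1 := fun i => by
    have : e i ^ 4 = (e i ^ 2) ^ 2 := by ring
    rw [this, he, one_pow]
  have h6 : ∀ i, e i ^ 6 = 1 := fun i => by
    have : e i ^ 6 = (e i ^ 2) ^ 3 := by ring
    rw [this, he, one_pow]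
  have h8 : ∀ i, e i ^ 8 = 1 := fun i => by
    have : e i ^ 8 = (e i ^ 2) ^ 4 := by ring
    rw [this, he, one_pow]
  simp only [G, mul_pow, he, h4, h6, h8, one_mul, Finset.prod_mul_distrib, hp]

/-- Permutations of the coordinates. -/
theorem G_perm {R : Type*} [CommRing R] (σ : Equiv.Perm (Fin 8)) (y : Fin 8 → R) :
    G (fun i => y (σ i)) = G y := by
  simp only [G]
  rw [Equiv.sum_comp σ (fun i => y i ^ 2), Equiv.sum_comp σ (fun i => y i ^ 4),
    Equiv.sum_comp σ (fun i => y i ^ 6), Equiv.sum_comp σ (fun i => y i ^ 8),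
    Equiv.prod_comp σ y]

end Pool.Agent.R56.E8
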