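import Pool.Agent.R56.E8.Half

set_option autoImplicit false

namespace Pool.Agent.R56.E8

lemma fer (M : ℕ) [NeZero M] (k : ℕ) (h : ∀ r : ZMod M, r ^ k = r ^ 2) (v : Fin 8 → ℤ) :
    (M : ℤ) ∣ ∑ i, v i ^ k - ∑ i, v i ^ 2 := by
  rw [← Finset.sum_sub_distrib]
  refine Finset.dvd_sum fun i _ => ?_
  rw [← ZMod.intCast_zmod_eq_zero_iff_dvd]
  push_cast
  rw [h, sub_self]

lemma mod7 (v : Fin 8 → ℤ) (m : ℤ) (h : ∑ i, v i ^ 2 = 8 * m) :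
    (7 : ℤ) ∣ G v - (m ^ 4 - 2 * m) := by
  obtain ⟨c, hc⟩ := fer 7 8 (by decide) v
  rw [h] at hc
  have hc' : ∑ i, v i ^ 8 = 8 * m + 7 * c := by push_cast at hc; linarith
  unfold G
  rw [h, hc']
  generalize ∑ i, v i ^ 4 = a
  generalize ∑ i, v i ^ 6 = b
  generalize ∏ i, v i = d
  exact ⟨8777 * m ^ 4 - 274 * m - 20 * (8 * m) ^ 2 * a + 20 * a ^ 2 + 32 * (8 * m) * b
    - 240 * c + 1920 * d, by ring⟩

lemma mod5 (v : Fin 8 → ℤ) (m : ℤ) (h : ∑ i, v i ^ 2 = 8 * m) :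
    (5 : ℤ) ∣ G v - m ^ 2 := by
  obtain ⟨c, hc⟩ := fer 5 6 (by decide) v
  rw [h] at hc
  have hc' : ∑ i, v i ^ 6 = 8 * m + 5 * c := by push_cast at hc; linarith
  unfold G
  rw [h, hc']
  generalize ∑ i, v i ^ 4 = a
  generalize ∑ i, v i ^ 8 = b
  generalize ∏ i, v i = d
  exact ⟨3 * (8 * m) ^ 4 - 28 * (8 * m) ^ 2 * a + 28 * a ^ 2 + 2867 * m ^ 2 + 224 * 8 * m * c
    - 48 * b + 2688 * d, by ring⟩

lemma mod3 (v : Fin 8 → ℤ) (m : ℤ) (h : ∑ i, v i ^ 2 = 8 * m) :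
    (3 : ℤ) ∣ G v - m ^ 2 * (2 * m + 1) := by
  obtain ⟨c, hc⟩ := fer 3 6 (by decide) v
  obtain ⟨a, ha⟩ := fer 3 4 (by decide) v
  rw [h] at hc ha
  have hc' : ∑ i, v i ^ 6 = 8 * m + 3 * c := by push_cast at hc; linarith
  have ha' : ∑ i, v i ^ 4 = 8 * m + 3 * a := by push_cast at ha; linarith
  unfold G
  rw [h, hc', ha']
  generalize ∑ i, v i ^ 8 = b
  generalize ∏ i, v i = d
  exact ⟨5 * (8 * m) ^ 4 - 23894 * m ^ 3 - 140 * 64 * m ^ 2 * a + 7765 * m ^ 2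
    + 140 * (16 * m * a + 3 * a ^ 2) + 224 * 8 * m * c - 80 * b + 4480 * d, by ring⟩

lemma card_dvd (M : ℕ) (hM : Nat.Prime M) (X : Finset (Fin 8 → ℤ)) (r : ℤ)
    (h : ∀ v ∈ X, (M : ℤ) ∣ G v - r) (hr : ¬ (M : ℤ) ∣ r) (h0 : ∑ v ∈ X, G v = 0) :
    M ∣ X.card := by
  have h1 : (M : ℤ) ∣ ∑ v ∈ X, (G v - r) := Finset.dvd_sum h
  rw [Finset.sum_sub_distrib, h0, Finset.sum_const, nsmul_eq_mul, zero_sub, dvd_neg] at h1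
  have h2 := ((Nat.prime_iff_prime_int.1 hM).dvd_or_dvd h1).resolve_right hr
  exact_mod_cast h2

end Pool.Agent.R56.E8
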