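import Pool.Agent.R56.E8.Sph

set_option autoImplicit false

open MeasureTheory Set Metric Real

namespace Pool.Agent.R56.E8

/-- The invariant harmonic polynomial of degree eight of the Weyl group of `E8`
(up to a constant factor), in the standard coordinates. -/
def G {R : Type*} [CommRing R] (x : Fin 8 → R) : R :=
  15 * (∑ i, x i ^ 2) ^ 4 - 140 * (∑ i, x i ^ 2) ^ 2 * (∑ i, x i ^ 4) +
    140 * (∑ i, x i ^ 4) ^ 2 + 224 * (∑ i, x i ^ 2) * (∑ i, x i ^ 6) -
    240 * (∑ i, x i ^ 8) + 13440 * ∏ i, x i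

lemma map_G {R S : Type*} [CommRing R] [CommRing S] (f : R →+* S) (x : Fin 8 → R) :
    f (G x) = G (fun i => f (x i)) := by
  simp [G, map_sum, map_prod, map_ofNat]

lemma G_smul {R : Type*} [CommRing R] (c : R) (x : Fin 8 → R) :
    G (fun i => c * x i) = c ^ 8 * G x := by
  simp only [G, mul_pow, ← Finset.mul_sum, Finset.prod_mul_distrib, Finset.prod_const,
    Finset.card_univ, Fintype.card_fin]
  ring

lemma integ {f : sphere (0 : E) 1 → ℝ} (hf : Continuous f) : Integrable f sig := by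
  have : IsFiniteMeasure sig := by unfold sig; infer_instance
  exact (BoundedContinuousFunction.mkOfCompact ⟨f, hf⟩).integrable sig

/-- the monomial -/
noncomputable def mm (β : Fin 8 → ℕ) (ξ : sphere (0 : E) 1) : ℝ := ∏ i, ((ξ : E) i) ^ β i

lemma cont_mm (β : Fin 8 → ℕ) : Continuous (mm β) := by
  unfold mm
  refine continuous_finsetProd _ fun i _ => ?_
  exact ((continuous_apply i).comp
    ((PiLp.continuous_ofLp 2 _).comp continuous_subtype_val)).pow _

lemma mm_single (i : Fin 8) (k : ℕ) (ξ : sphere (0 : E) 1) :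
    mm (Pi.single i k) ξ = ((ξ : E) i) ^ k := by
  unfold mm
  rw [Finset.prod_eq_single i]
  · simp
  · intro j _ hj
    simp [Pi.single_apply, hj]
  · simp

lemma mm_add (β γ : Fin 8 → ℕ) (ξ : sphere (0 : E) 1) :
    mm (β + γ) ξ = mm β ξ * mm γ ξ := by
  unfold mm
  rw [← Finset.prod_mul_distrib]
  exact Finset.prod_congr rfl fun i _ => by simp [pow_add]

lemma sqrtpi8 : (√π) ^ 8 = π ^ 4 := by
  have : (√π) ^ 8 = ((√π) ^ 2) ^ 4 := by ring
  rw [this, Real.sq_sqrt Real.pi_pos.le]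

lemma I0 : ∫ ξ, mm 0 ξ ∂sig = π ^ 4 / 3 := by
  have h := mom 0 0 (by simp)
  have h2 : ∏ i : Fin 8, g1 ((0 : Fin 8 → ℕ) i) = π ^ 4 := by
    simp [g1_zero, sqrtpi8]
  rw [h2] at h
  norm_num [Nat.factorial] at h
  unfold mm
  norm_num [Nat.factorial]
  linarith

lemma I4 (i : Fin 8) : ∫ ξ, mm (Pi.single i 4) ξ ∂sig = π ^ 4 / 80 := by
  have h := mom (Pi.single i 4) 2 (by simp)
  have h2 : ∏ k : Fin 8, g1 ((Pi.single i 4 : Fin 8 → ℕ) k) = 3 / 4 * π ^ 4 := by
    rw [← sqrtpi8]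
    fin_cases i <;> simp [Fin.prod_univ_eight, Pi.single_apply, g1_zero, g1_four] <;> ring
  rw [h2] at h
  norm_num [Nat.factorial] at h
  unfold mm
  linarith

lemma I6 (i : Fin 8) : ∫ ξ, mm (Pi.single i 6) ξ ∂sig = π ^ 4 / 192 := by
  have h := mom (Pi.single i 6) 3 (by simp)
  have h2 : ∏ k : Fin 8, g1 ((Pi.single i 6 : Fin 8 → ℕ) k) = 15 / 8 * π ^ 4 := by
    rw [← sqrtpi8]
    fin_cases i <;> simp [Fin.prod_univ_eight, Pi.single_apply, g1_zero, g1_six] <;> ring
  rw [h2] at h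
  norm_num [Nat.factorial] at h
  unfold mm
  linarith

lemma I8 (i : Fin 8) : ∫ ξ, mm (Pi.single i 8) ξ ∂sig = π ^ 4 / 384 := by
  have h := mom (Pi.single i 8) 4 (by simp)
  have h2 : ∏ k : Fin 8, g1 ((Pi.single i 8 : Fin 8 → ℕ) k) = 105 / 16 * π ^ 4 := by
    rw [← sqrtpi8]
    fin_cases i <;> simp [Fin.prod_univ_eight, Pi.single_apply, g1_zero, g1_eight] <;> ring
  rw [h2] at h
  norm_num [Nat.factorial] at h
  unfold mm
  linarith

lemma I44 (i k : Fin 8) (hik : i ≠ k) :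
    ∫ ξ, mm (Pi.single i 4 + Pi.single k 4) ξ ∂sig = π ^ 4 / 4480 := by
  have h := mom (Pi.single i 4 + Pi.single k 4) 4 (by
    simp [Finset.sum_add_distrib])
  have h2 : ∏ l : Fin 8, g1 ((Pi.single i 4 + Pi.single k 4 : Fin 8 → ℕ) l) = 9 / 16 * π ^ 4 := by
    rw [← sqrtpi8]
    have e : ∀ l : Fin 8, g1 ((Pi.single i 4 + Pi.single k 4 : Fin 8 → ℕ) l) =
        (if l = i then 3 / 4 else 1) * ((if l = k then 3 / 4 else 1) * √π) := by
      intro l
      by_cases h1 : l = i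
      · subst h1
        simp [Pi.single_apply, hik, g1_four]
      · by_cases h2 : l = k
        · subst h2
          simp [Pi.single_apply, h1, g1_four]
        · simp [Pi.single_apply, h1, h2, g1_zero]
    rw [Finset.prod_congr rfl fun l _ => e l, Finset.prod_mul_distrib, Finset.prod_mul_distrib]
    simp
    ring
  rw [h2] at h
  norm_num [Nat.factorial] at h
  unfold mm
  simp only [Pi.add_apply]
  linarith

lemma I1 : ∫ ξ, mm 1 ξ ∂sig = 0 := by
  have h := mom 1 4 (by simp)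
  have h2 : ∏ l : Fin 8, g1 ((1 : Fin 8 → ℕ) l) = 0 := by
    simp [g1_one]
  rw [h2] at h
  norm_num [Nat.factorial] at h
  unfold mm
  simpa using h

lemma G_sphere (ξ : sphere (0 : E) 1) : G (fun i => (ξ : E) i) =
    15 * mm 0 ξ - 140 * ∑ i, mm (Pi.single i 4) ξ +
      140 * ∑ i, ∑ k, mm (Pi.single i 4 + Pi.single k 4) ξ + 224 * ∑ i, mm (Pi.single i 6) ξ -
      240 * ∑ i, mm (Pi.single i 8) ξ + 13440 * mm 1 ξ := by
  have h : ∑ i, ((ξ : E) i) ^ 2 = 1 := by
    have h1 : ‖(ξ : E)‖ = 1 := by simpa using ξ.2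
    have h2 := EuclideanSpace.norm_sq_eq (ξ : E)
    rw [h1] at h2
    simpa using h2.symm
  unfold G
  rw [h]
  simp only [mm_add, mm_single, ← Finset.mul_sum, ← Finset.sum_mul]
  have h3 : mm 0 ξ = 1 := by simp [mm]
  have h4 : mm 1 ξ = ∏ i, (ξ : E) i := by simp [mm]
  rw [h3, h4]
  ring

theorem int_G : ∫ ξ, G (fun i => (ξ : E) i) ∂sig = 0 := by
  have hI : ∀ β, Integrable (mm β) sig := fun β => integ (cont_mm β)
  have hs : ∀ k : ℕ, Integrable (fun ξ => ∑ i, mm (Pi.single i k) ξ) sig := fun k =>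
    integrable_finsetSum _ fun i _ => hI _
  have hd : Integrable (fun ξ => ∑ i, ∑ k, mm (Pi.single i 4 + Pi.single k 4) ξ) sig :=
    integrable_finsetSum _ fun i _ => integrable_finsetSum _ fun k _ => hI _
  have e : (fun ξ : sphere (0 : E) 1 => G (fun i => (ξ : E) i)) = fun ξ =>
    15 * mm 0 ξ - 140 * ∑ i, mm (Pi.single i 4) ξ +
      140 * ∑ i, ∑ k, mm (Pi.single i 4 + Pi.single k 4) ξ + 224 * ∑ i, mm (Pi.single i 6) ξ -
      240 * ∑ i, mm (Pi.single i 8) ξ + 13440 * mm 1 ξ := funext G_sphere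
  rw [e]
  have a1 := (hI 0).const_mul 15
  have a2 := (hs 4).const_mul 140
  have a3 := hd.const_mul 140
  have a4 := (hs 6).const_mul 224
  have a5 := (hs 8).const_mul 240
  have a6 := (hI 1).const_mul 13440
  have b2 : Integrable (fun ξ => 15 * mm 0 ξ - 140 * ∑ i, mm (Pi.single i 4) ξ) sig := a1.sub a2
  have b3 : Integrable (fun ξ => 15 * mm 0 ξ - 140 * ∑ i, mm (Pi.single i 4) ξ +
      140 * ∑ i, ∑ k, mm (Pi.single i 4 + Pi.single k 4) ξ) sig := b2.add a3
  have b4 : Integrable (fun ξ => 15 * mm 0 ξ - 140 * ∑ i, mm (Pi.single i 4) ξ +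
      140 * ∑ i, ∑ k, mm (Pi.single i 4 + Pi.single k 4) ξ +
      224 * ∑ i, mm (Pi.single i 6) ξ) sig := b3.add a4
  have b5 : Integrable (fun ξ => 15 * mm 0 ξ - 140 * ∑ i, mm (Pi.single i 4) ξ +
      140 * ∑ i, ∑ k, mm (Pi.single i 4 + Pi.single k 4) ξ +
      224 * ∑ i, mm (Pi.single i 6) ξ - 240 * ∑ i, mm (Pi.single i 8) ξ) sig := b4.sub a5
  rw [integral_add b5 a6, integral_sub b4 a5, integral_add b3 a4, integral_add b2 a3,
    integral_sub a1 a2]
  simp only [integral_const_mul]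
  rw [integral_finset_sum _ fun i _ => hI _, integral_finset_sum _ fun i _ => hI _,
    integral_finset_sum _ fun i _ => hI _,
    integral_finset_sum _ fun i _ => integrable_finsetSum _ fun k _ => hI _]
  simp only [integral_finset_sum _ fun k _ => hI (Pi.single _ 4 + Pi.single k 4)]
  have hdd : ∀ i k : Fin 8, ∫ ξ, mm (Pi.single i 4 + Pi.single k 4) ξ ∂sig =
      if i = k then π ^ 4 / 384 else π ^ 4 / 4480 := by
    intro i k
    by_cases h : i = k
    · subst h
      rw [← Pi.single_add]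
      simp [I8]
    · simp [h, I44 i k h]
  simp only [hdd, I0, I4, I6, I8, I1, Finset.sum_ite_eq, Finset.sum_const, Finset.card_univ,
    Fintype.card_fin]
  have hs2 : ∑ i : Fin 8, ∑ k : Fin 8, (if i = k then π ^ 4 / 384 else π ^ 4 / 4480) =
      8 * (π ^ 4 / 384) + 56 * (π ^ 4 / 4480) := by
    simp [Fin.sum_univ_eight]
    ring
  rw [hs2]
  simp
  ring

end Pool.Agent.R56.E8
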