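import Pool.Agent.R56.E8.Arith2

set_option autoImplicit false

namespace Pool.Agent.R56.E8

/-- `r / 2` is a root (a vector of norm two) of the `E8` lattice. -/
def IsRoot (r : Fin 8 → ℤ) : Prop := InE8 r ∧ ∑ i, r i ^ 2 = 8

/-- `w / 2` is the image of `v / 2` under the reflection in the root `r / 2` of the `E8`
lattice, that is `w / 2 = v / 2 - <v / 2, r / 2> r / 2`, for some root. -/
def Reflect (v w : Fin 8 → ℤ) : Prop :=
  ∃ r : Fin 8 → ℤ, IsRoot r ∧ ∀ i, 4 * w i = 4 * v i - (∑ k, r k * v k) * r i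

lemma G_refl_one (z : Fin 8 → ℤ) : G (fun i => 4 * z i - ∑ k, z k) = 4 ^ 8 * G z := by
  set q := U z with hq
  set e : Fin 8 → ℤ := ![-1, 1, 1, 1, -1, 1, 1, 1] with he
  have h1 : U (fun i => 4 * z i - ∑ k, z k) =
      fun i => 4 * (e i * q ((Equiv.swap (0 : Fin 8) 4) i)) := by
    ext i
    have s1 : Equiv.swap (0 : Fin 8) 4 1 = 1 := by decide
    have s2 : Equiv.swap (0 : Fin 8) 4 2 = 2 := by decide
    have s3 : Equiv.swap (0 : Fin 8) 4 3 = 3 := by decide
    have s5 : Equiv.swap (0 : Fin 8) 4 5 = 5 := by decide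
    have s6 : Equiv.swap (0 : Fin 8) 4 6 = 6 := by decide
    have s7 : Equiv.swap (0 : Fin 8) 4 7 = 7 := by decide
    fin_cases i <;> simp [U, hq, he, Fin.sum_univ_eight, s1, s2, s3, s5, s6, s7] <;> ring
  have h2 := G_U (fun i => 4 * z i - ∑ k, z k)
  rw [h1, G_smul, G_sign e (fun i => q ((Equiv.swap (0 : Fin 8) 4) i))
    (by intro i; fin_cases i <;> simp [he]) (by simp [he, Fin.prod_univ_eight]),
    G_perm, hq, G_U] at h2
  linarith

lemma G_reflect_odd (v w r : Fin 8 → ℤ) (hr : ∀ i, r i ^ 2 = 1) (hp : ∏ i, r i = 1)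
    (h : ∀ i, 4 * w i = 4 * v i - (∑ k, r k * v k) * r i) : G w = G v := by
  have h1 : (fun i => 4 * w i) = fun i => r i * (4 * (r i * v i) - ∑ k, r k * v k) := by
    ext i
    rw [h i]
    linear_combination (-4 * v i) * hr i
  have h2 : G (fun i => 4 * w i) = 4 ^ 8 * G v := by
    rw [h1, G_sign r _ hr hp, G_refl_one (fun i => r i * v i), G_sign r v hr hp]
  rw [G_smul] at h2
  linarith

lemma G_reflect_even (v w κ : Fin 8 → ℤ) (hκ : ∑ i, κ i ^ 2 = 2)
    (h : ∀ i, w i = v i - (∑ k, κ k * v k) * κ i) : G w = G v := by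
  have h1 : ∀ i, κ i ^ 2 ≤ 2 := fun i => by
    rw [← hκ]
    exact Finset.single_le_sum (f := fun i => κ i ^ 2) (fun j _ => sq_nonneg (κ j))
      (Finset.mem_univ i)
  have h2 : ∀ i, κ i = 0 ∨ κ i = 1 ∨ κ i = -1 := fun i => by
    have := h1 i
    have a : κ i ≤ 1 := by nlinarith
    have b : -1 ≤ κ i := by nlinarith
    omega
  have h3 : ∀ i, κ i ^ 2 = if κ i ≠ 0 then 1 else 0 := fun i => by
    rcases h2 i with h | h | h <;> simp [h]
  have h4 : (Finset.univ.filter fun i => κ i ≠ 0).card = 2 := by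
    have : ∑ i, κ i ^ 2 = ((Finset.univ.filter fun i => κ i ≠ 0).card : ℤ) := by
      rw [Finset.sum_congr rfl fun i _ => h3 i, Finset.sum_boole]
    rw [hκ] at this
    exact_mod_cast this.symm
  obtain ⟨a, b, hab, hS⟩ := Finset.card_eq_two.1 h4
  have hz : ∀ i, i ≠ a → i ≠ b → κ i = 0 := by
    intro i ha hb
    by_contra hc
    have : i ∈ (Finset.univ.filter fun i => κ i ≠ 0) := by simp [hc]
    rw [hS] at this
    simp [ha, hb] at this
  have hka : κ a ≠ 0 := by
    have : a ∈ (Finset.univ.filter fun i => κ i ≠ 0) := by rw [hS]; simp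
    simpa using this
  have hkb : κ b ≠ 0 := by
    have : b ∈ (Finset.univ.filter fun i => κ i ≠ 0) := by rw [hS]; simp
    simpa using this
  have hka2 : κ a ^ 2 = 1 := by rw [h3]; simp [hka]
  have hkb2 : κ b ^ 2 = 1 := by rw [h3]; simp [hkb]
  have hsum : ∑ k, κ k * v k = κ a * v a + κ b * v b := by
    apply Finset.sum_eq_add a b hab
    · intro c _ hc
      rw [hz c hc.1 hc.2, zero_mul]
    · intro hh; exact absurd (Finset.mem_univ a) hh
    · intro hh; exact absurd (Finset.mem_univ b) hh
  set s : ℤ := -(κ a * κ b) with hs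
  have hs2 : s ^ 2 = 1 := by
    rw [hs]
    linear_combination κ b ^ 2 * hka2 + hkb2
  have hw : w = fun i => ((if i = a then s else 1) * (if i = b then s else 1)) *
      v (Equiv.swap a b i) := by
    ext i
    rw [h i, hsum]
    by_cases hia : i = a
    · subst hia
      rw [if_pos rfl, if_neg hab, Equiv.swap_apply_left, hs]
      linear_combination (-v i) * hka2
    · by_cases hib : i = b
      · subst hib
        rw [if_neg hia, if_pos rfl, Equiv.swap_apply_right, hs]
        linear_combination (-v i) * hkb2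
      · rw [if_neg hia, if_neg hib, Equiv.swap_apply_of_ne_of_ne hia hib, hz i hia hib]
        ring
  rw [hw, G_sign (fun i => (if i = a then s else 1) * (if i = b then s else 1))
    (fun i => v (Equiv.swap a b i)) ?_ ?_, G_perm]
  · intro i
    by_cases hia : i = a
    · by_cases hib : i = b
      · exact absurd (hia.symm.trans hib) hab
      · simp only [if_pos hia, if_neg hib]
        linear_combination hs2
    · by_cases hib : i = b
      · simp only [if_neg hia, if_pos hib]
        linear_combination hs2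
      · simp [hia, hib]
  · rw [Finset.prod_mul_distrib]
    simp
    linear_combination hs2

theorem G_reflect (v w : Fin 8 → ℤ) (h : Reflect v w) : G w = G v := by
  obtain ⟨r, ⟨hr, hn⟩, hw⟩ := h
  rcases Int.emod_two_eq_zero_or_one (r 0) with h0 | h0
  · have he : ∀ i, r i % 2 = 0 := fun i => by rw [hr.1 i 0, h0]
    set κ : Fin 8 → ℤ := fun i => r i / 2 with hκ
    have hv : ∀ i, r i = 2 * κ i := fun i => by simp only [hκ]; have := he i; omega
    apply G_reflect_even v w κ
    · have : ∑ i, r i ^ 2 = 4 * ∑ i, κ i ^ 2 := by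
        rw [Finset.mul_sum]; exact Finset.sum_congr rfl fun i _ => by rw [hv i]; ring
      omega
    · intro i
      have h1 := hw i
      have h2 : ∑ k, r k * v k = 2 * ∑ k, κ k * v k := by
        rw [Finset.mul_sum]; exact Finset.sum_congr rfl fun i _ => by rw [hv i]; ring
      rw [h2, hv i] at h1
      linarith
  · have ho : ∀ i, r i % 2 = 1 := fun i => by rw [hr.1 i 0, h0]
    have h1 : ∀ i, 0 ≤ r i ^ 2 - 1 := fun i => by
      have : r i ≠ 0 := fun h => by have := ho i; omega
      have : 0 < r i ^ 2 := by positivity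
      omega
    have h2 : ∑ i, (r i ^ 2 - 1) = 0 := by
      rw [Finset.sum_sub_distrib, hn]; simp
    have h3 : ∀ i, r i ^ 2 = 1 := fun i => by
      have := (Finset.sum_eq_zero_iff_of_nonneg fun i _ => h1 i).1 h2 i (Finset.mem_univ i)
      omega
    have h4 : ∏ i, r i = 1 := by
      have h5 : ∏ i, r i = 1 ∨ ∏ i, r i = -1 := by
        refine mul_self_eq_one_iff.1 ?_
        rw [← sq, ← Finset.prod_pow]
        simp [h3]
      have h6 := prod_mod4 r ho
      have h7 := hr.2
      rcases h5 with h | h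
      · exact h
      · rw [h] at h6; omega
    exact G_reflect_odd v w r h3 h4 hw

end Pool.Agent.R56.E8
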