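import Mathlib

set_option autoImplicit false

open MeasureTheory Set Metric Real
open scoped RealInnerProductSpace ENNReal

namespace Pool.Agent.R56.E8

noncomputable section

/-- The eight dimensional Euclidean space. -/
abbrev E := EuclideanSpace ℝ (Fin 8)

/-- The surface measure on the unit sphere of `E`. -/
def sig : Measure (sphere (0 : E) 1) := (volume : Measure E).toSphere

lemma finrank_E : Module.finrank ℝ E = 8 := by simp

/-- Polar coordinates for a function that is homogeneous of degree `a`. -/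
lemma polar (a : ℕ) (G : E → ℝ)
    (hG : ∀ r : ℝ, 0 < r → ∀ x : E, ‖x‖ = 1 → G (r • x) = r ^ a * G x) :
    ∫ x : E, G x * exp (-‖x‖ ^ 2) =
      (∫ ξ, G (ξ : E) ∂sig) * ∫ r in Ioi (0 : ℝ), r ^ (7 : ℕ) * (r ^ a * exp (-r ^ 2)) := by
  have hE : Module.finrank ℝ E - 1 = 7 := by rw [finrank_E]
  calc
    ∫ x : E, G x * exp (-‖x‖ ^ 2)
        = ∫ x : ({(0 : E)}ᶜ : Set E), G x.1 * exp (-‖x.1‖ ^ 2)
            ∂((volume : Measure E).comap (↑)) := by
      rw [integral_subtype_comap (measurableSet_singleton _).compl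
        fun x : E ↦ G x * exp (-‖x‖ ^ 2), restrict_compl_singleton]
    _ = ∫ p : sphere (0 : E) 1 × Ioi (0 : ℝ), G (p.1 : E) *
          ((p.2 : ℝ) ^ a * exp (-(p.2 : ℝ) ^ 2))
          ∂((volume : Measure E).toSphere.prod (Measure.volumeIoiPow (Module.finrank ℝ E - 1))) := by
      have h := (volume : Measure E).measurePreserving_homeomorphUnitSphereProd.integral_comp
        (Homeomorph.measurableEmbedding _)
        (fun p : sphere (0 : E) 1 × Ioi (0 : ℝ) => G (p.1 : E) *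
          ((p.2 : ℝ) ^ a * exp (-(p.2 : ℝ) ^ 2)))
      rw [← h]
      refine integral_congr_ae (Filter.Eventually.of_forall fun x => ?_)
      have hx : (x : E) ≠ 0 := x.2
      have hn : 0 < ‖(x : E)‖ := norm_pos_iff.2 hx
      have h1 : ((homeomorphUnitSphereProd E x).2 : ℝ) = ‖(x : E)‖ := by simp
      have h2 : ((homeomorphUnitSphereProd E x).1 : E) = ‖(x : E)‖⁻¹ • (x : E) := by simp
      have h3 : G (x : E) = ‖(x : E)‖ ^ a * G (‖(x : E)‖⁻¹ • (x : E)) := by
        rw [← hG _ hn _ (by rw [norm_smul, norm_inv, norm_norm, inv_mul_cancel₀ hn.ne'])]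
        rw [smul_smul, mul_inv_cancel₀ hn.ne', one_smul]
      simp only [h1, h2]
      rw [h3]
      ring
    _ = (∫ ξ, G (ξ : E) ∂sig) *
          ∫ r : Ioi (0 : ℝ), ((r : ℝ) ^ a * exp (-(r : ℝ) ^ 2))
            ∂(Measure.volumeIoiPow (Module.finrank ℝ E - 1)) := by
      rw [sig]
      exact integral_prod_mul (fun ξ : sphere (0 : E) 1 => G (ξ : E))
        (fun r : Ioi (0 : ℝ) => (r : ℝ) ^ a * exp (-(r : ℝ) ^ 2))
    _ = _ := by
      congr 1
      simp only [Measure.volumeIoiPow, ENNReal.ofReal]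
      rw [integral_withDensity_eq_integral_smul,
        integral_subtype_comap measurableSet_Ioi fun r : ℝ ↦
          Real.toNNReal (r ^ (Module.finrank ℝ E - 1)) • (r ^ a * exp (-r ^ 2)),
        setIntegral_congr_fun measurableSet_Ioi fun x hx ↦ ?_]
      · rw [hE]
        simp only [NNReal.smul_def, smul_eq_mul]
        rw [Real.coe_toNNReal _ (pow_nonneg (le_of_lt hx) _)]
      · exact (measurable_subtype_coe.pow_const _).real_toNNReal

theorem gamma_int (k : ℕ) : ∫ t in Ioi (0 : ℝ), t ^ k * Real.exp (-t ^ 2) =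
    1 / 2 * Real.Gamma ((k + 1) / 2) := by
  have h := integral_rpow_mul_exp_neg_rpow (p := 2) (q := k) (by norm_num)
    (by have : (0 : ℝ) ≤ k := Nat.cast_nonneg _
        linarith)
  rw [← h]
  refine setIntegral_congr_fun measurableSet_Ioi (fun t ht => ?_)
  simp

lemma radial (j : ℕ) :
    ∫ r in Ioi (0 : ℝ), r ^ (7 : ℕ) * (r ^ (2 * j) * exp (-r ^ 2)) =
      ((j + 3).factorial : ℝ) / 2 := by
  have h := gamma_int (7 + 2 * j)
  have e : (((7 + 2 * j : ℕ) : ℝ) + 1) / 2 = ((j + 3 : ℕ) : ℝ) + 1 := by push_cast; ring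
  rw [e, Real.Gamma_nat_eq_factorial] at h
  have h2 : ∫ r in Ioi (0 : ℝ), r ^ (7 : ℕ) * (r ^ (2 * j) * exp (-r ^ 2)) =
      ∫ t in Ioi (0 : ℝ), t ^ (7 + 2 * j) * Real.exp (-t ^ 2) := by
    refine setIntegral_congr_fun measurableSet_Ioi (fun t ht => ?_)
    rw [← mul_assoc, ← pow_add]
  rw [h2, h]
  ring

/-- one-dimensional moments -/
def g1 (k : ℕ) : ℝ := ∫ t : ℝ, t ^ k * Real.exp (-t ^ 2)

lemma g1_even (j : ℕ) : g1 (2 * j) = Real.Gamma (j + 1 / 2) := by
  unfold g1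
  have h := integral_comp_abs (f := fun t : ℝ => t ^ (2 * j) * Real.exp (-t ^ 2))
  have h1 : ∀ t : ℝ, |t| ^ (2 * j) = t ^ (2 * j) := fun t => by
    rw [pow_mul, sq_abs, ← pow_mul]
  simp only [sq_abs, h1] at h
  rw [h, gamma_int]
  have e : (((2 * j : ℕ) : ℝ) + 1) / 2 = j + 1 / 2 := by push_cast; ring
  rw [e]
  ring

lemma g1_one : g1 1 = 0 := by
  unfold g1
  have h := integral_neg_eq_self (fun t : ℝ => t ^ 1 * Real.exp (-t ^ 2)) volume
  have h2 : ∫ t : ℝ, (-t) ^ 1 * Real.exp (-(-t) ^ 2) = - ∫ t : ℝ, t ^ 1 * Real.exp (-t ^ 2) := by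
    rw [← integral_neg]
    congr 1
    ext t
    simp
  rw [h2] at h
  linarith

lemma g1_zero : g1 0 = √π := by
  have := g1_even 0
  simp only [mul_zero, Nat.cast_zero, zero_add] at this
  rw [this, Real.Gamma_one_half_eq]

lemma g1_succ (j : ℕ) : g1 (2 * (j + 1)) = (j + 1 / 2) * g1 (2 * j) := by
  rw [g1_even, g1_even, ← Real.Gamma_add_one (by positivity)]
  congr 1
  push_cast
  ring

lemma g1_four : g1 4 = 3 / 4 * √π := by
  have h1 := g1_succ 0
  have h2 := g1_succ 1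
  norm_num [g1_zero] at h1 h2
  rw [h2, h1]; ring

lemma g1_six : g1 6 = 15 / 8 * √π := by
  have h2 := g1_succ 2
  norm_num [g1_four] at h2
  rw [h2]; ring

lemma g1_eight : g1 8 = 105 / 16 * √π := by
  have h2 := g1_succ 3
  norm_num [g1_six] at h2
  rw [h2]; ring

lemma gauss_prod (β : Fin 8 → ℕ) : ∫ y : E, (∏ i, (y i) ^ β i) * Real.exp (-‖y‖ ^ 2) =
    ∏ i, g1 (β i) := by
  rw [← (PiLp.volume_preserving_toLp (Fin 8)).integral_comp
    (MeasurableEquiv.toLp 2 _).measurableEmbedding]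
  have h1 : ∀ x : Fin 8 → ℝ, (∏ i, ((WithLp.toLp 2 x : E) i) ^ β i) *
      Real.exp (-‖(WithLp.toLp 2 x : E)‖ ^ 2) =
      ∏ i, (fun (i : Fin 8) (t : ℝ) => t ^ (β i) * Real.exp (-t ^ 2)) i (x i) := by
    intro x
    rw [EuclideanSpace.norm_sq_eq, Finset.prod_mul_distrib, ← Real.exp_sum]
    simp
  have h4 := integral_fintype_prod_volume_eq_prod (ι := Fin 8) (E := fun _ => ℝ)
    (fun (i : Fin 8) (t : ℝ) => t ^ (β i) * Real.exp (-t ^ 2))
  exact (integral_congr_ae (Filter.Eventually.of_forall h1)).trans h4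

lemma mom (β : Fin 8 → ℕ) (j : ℕ) (hβ : ∑ i, β i = 2 * j) :
    (∫ ξ, (∏ i, ((ξ : E) i) ^ β i) ∂sig) * (((j + 3).factorial : ℝ) / 2) = ∏ i, g1 (β i) := by
  rw [← radial, ← gauss_prod]
  symm
  apply polar (2 * j) (fun y => ∏ i, (y i) ^ β i)
  intro r hr x hx
  simp only [PiLp.smul_apply, smul_eq_mul, mul_pow, Finset.prod_mul_distrib]
  rw [Finset.prod_pow_eq_pow_sum, hβ]

end

end Pool.Agent.R56.E8
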